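import Pool.Agent.K1H80.KA.Stm

/-!
# A valuation for which the given algebraically independent elements are infinitesimal of different orders
-/

set_option autoImplicit false

namespace Pool.Agent.K1H74.KA

open MvPolynomial Pool.Agent.KA

section
variable {F L : Type} [Field F] [Field L] [Algebra F L] {m : ℕ} (f : Fin m → L)

/-- Laurent monomials -/
noncomputable def mon (c : Fin m → ℤ) : L := ∏ i, f i ^ c i

theorem mon_add (hf : ∀ i, f i ≠ 0) (c c' : Fin m → ℤ) : mon f (c + c') = mon f c * mon f c' := by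
  unfold mon
  rw [← Finset.prod_mul_distrib]
  exact Finset.prod_congr rfl fun i _ => zpow_add₀ (hf i) _ _

theorem mon_zero : mon f 0 = 1 := by simp [mon]

/-- lexicographically positive -/
def LP (c : Fin m → ℤ) : Prop := ∃ i, 0 < c i ∧ ∀ j < i, c j = 0

theorem LP.add {c c' : Fin m → ℤ} (h : LP c) (h' : LP c') : LP (c + c') := by
  obtain ⟨i, hi, hi'⟩ := h
  obtain ⟨k, hk, hk'⟩ := h'
  rcases lt_trichotomy i k with h | h | h
  · refine ⟨i, ?_, fun j hj => ?_⟩
    · rw [Pi.add_apply, hk' i h, add_zero]; exact hi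
    · rw [Pi.add_apply, hi' j hj, hk' j (hj.trans h), add_zero]
  · subst h
    refine ⟨i, ?_, fun j hj => ?_⟩
    · rw [Pi.add_apply]; exact add_pos hi hk
    · rw [Pi.add_apply, hi' j hj, hk' j hj, add_zero]
  · refine ⟨k, ?_, fun j hj => ?_⟩
    · rw [Pi.add_apply, hi' k h, zero_add]; exact hk
    · rw [Pi.add_apply, hk' j hj, hi' j (hj.trans h), add_zero]

theorem not_LP_zero : ¬ LP (0 : Fin m → ℤ) := by
  rintro ⟨i, hi, -⟩
  exact absurd hi (lt_irrefl _)

variable (F) in
/-- the Laurent monomials are linearly independent -/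
theorem linInd (hf : AlgebraicIndependent F f) : LinearIndependent F (mon f) := by
  classical
  have hne : ∀ i, f i ≠ 0 := fun i => hf.ne_zero i
  rw [linearIndependent_iff']
  intro s g hg c₀ hc₀
  obtain ⟨k, hk⟩ : ∃ k : ℕ, ∀ c ∈ s, ∀ i, 0 ≤ (k : ℤ) + c i := by
    refine ⟨∑ c ∈ s, ∑ i, (c i).natAbs, fun c hc i => ?_⟩
    have h1 : (c i).natAbs ≤ ∑ i, (c i).natAbs :=
      Finset.single_le_sum (f := fun i => (c i).natAbs) (fun _ _ => Nat.zero_le _) (Finset.mem_univ i)
    have h2 : ∑ i, (c i).natAbs ≤ ∑ c ∈ s, ∑ i, (c i).natAbs :=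
      Finset.single_le_sum (f := fun c : Fin m → ℤ => ∑ i, (c i).natAbs)
        (fun _ _ => Nat.zero_le _) hc
    omega
  let e : (Fin m → ℤ) → (Fin m →₀ ℕ) := fun c =>
    Finsupp.equivFunOnFinite.symm (fun i => ((k : ℤ) + c i).toNat)
  have he : ∀ c i, e c i = ((k : ℤ) + c i).toNat := fun c i => rfl
  have hinj : ∀ c ∈ s, e c = e c₀ → c = c₀ := by
    intro c hc h
    funext i
    have h1 : e c i = e c₀ i := by rw [h]
    rw [he, he] at h1
    have h2 := hk c hc i
    have h3 := hk c₀ hc₀ i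
    omega
  let P : MvPolynomial (Fin m) F := ∑ c ∈ s, monomial (e c) (g c)
  have hP : aeval f P = 0 := by
    have h1 : ∀ c ∈ s, aeval f (monomial (e c) (g c)) = mon f (fun _ => (k : ℤ)) * (g c • mon f c) := by
      intro c hc
      rw [aeval_monomial, Finsupp.prod_fintype _ _ (fun i => pow_zero _), Algebra.smul_def,
        mul_left_comm, ← mon_add f hne]
      congr 1
      unfold mon
      refine Finset.prod_congr rfl fun i _ => ?_
      rw [he, Pi.add_apply, ← zpow_natCast, Int.toNat_of_nonneg (hk c hc i)]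
    show aeval f (∑ c ∈ s, monomial (e c) (g c)) = 0
    rw [map_sum, Finset.sum_congr rfl h1, ← Finset.mul_sum, hg, mul_zero]
  have hP0 : P = 0 := by
    have hinj' : Function.Injective (aeval f : MvPolynomial (Fin m) F →ₐ[F] L) := hf
    exact hinj' (by rw [hP, map_zero])
  have hcoeff : coeff (e c₀) P = g c₀ := by
    show coeff (e c₀) (∑ c ∈ s, monomial (e c) (g c)) = g c₀
    rw [coeff_sum, Finset.sum_eq_single c₀]
    · rw [coeff_monomial, if_pos rfl]
    · intro c hc hcc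
      rw [coeff_monomial, if_neg]
      exact fun h => hcc (hinj c hc h)
    · intro h; exact absurd hc₀ h
  rw [← hcoeff, hP0, coeff_zero]

variable (F) in
/-- the span of the positive monomials -/
noncomputable def I0 : Submodule F L := Submodule.span F (mon f '' {c | LP c})

theorem one_notMem (hf : AlgebraicIndependent F f) : (1 : L) ∉ I0 F f := by
  have h := (linInd F f hf).notMem_span_image (s := {c | LP c}) (x := 0) not_LP_zero
  rw [mon_zero] at h
  exact h

theorem I0_mul (hf : ∀ i, f i ≠ 0) {x y : L} (hx : x ∈ I0 F f) (hy : y ∈ I0 F f) :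
    x * y ∈ I0 F f := by
  have h := Submodule.mul_mem_mul hx hy
  unfold I0 at h ⊢
  rw [Submodule.span_mul_span] at h
  refine Submodule.span_mono ?_ h
  rintro _ ⟨_, ⟨c, hc, rfl⟩, _, ⟨c', hc', rfl⟩, rfl⟩
  exact ⟨c + c', LP.add hc hc', mon_add f hf c c'⟩

variable (F) in
/-- the ring `F + I0` -/
noncomputable def R0 (hf : ∀ i, f i ≠ 0) : Subring L where
  carrier := {x | ∃ a : F, ∃ u ∈ I0 F f, x = algebraMap F L a + u}
  mul_mem' := by
    rintro _ _ ⟨a, u, hu, rfl⟩ ⟨b, v, hv, rfl⟩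
    refine ⟨a * b, a • v + b • u + u * v, ?_, ?_⟩
    · exact (I0 F f).add_mem ((I0 F f).add_mem ((I0 F f).smul_mem a hv) ((I0 F f).smul_mem b hu))
        (I0_mul f hf hu hv)
    · rw [map_mul, Algebra.smul_def, Algebra.smul_def]; ring
  one_mem' := ⟨1, 0, (I0 F f).zero_mem, by simp⟩
  add_mem' := by
    rintro _ _ ⟨a, u, hu, rfl⟩ ⟨b, v, hv, rfl⟩
    exact ⟨a + b, u + v, (I0 F f).add_mem hu hv, by rw [map_add]; ring⟩
  zero_mem' := ⟨0, 0, (I0 F f).zero_mem, by simp⟩
  neg_mem' := by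
    rintro _ ⟨a, u, hu, rfl⟩
    exact ⟨-a, -u, (I0 F f).neg_mem hu, by rw [map_neg]; ring⟩

variable (F) in
/-- the ideal `I0` -/
noncomputable def II (hf : ∀ i, f i ≠ 0) : Ideal (R0 F f hf) where
  carrier := {x | (x : L) ∈ I0 F f}
  add_mem' := fun {a b} ha hb => (I0 F f).add_mem ha hb
  zero_mem' := (I0 F f).zero_mem
  smul_mem' := by
    rintro ⟨_, a, u, hu, rfl⟩ ⟨x, hx⟩ (h : x ∈ I0 F f)
    show (algebraMap F L a + u) * x ∈ I0 F f
    rw [add_mul, ← Algebra.smul_def]
    exact (I0 F f).add_mem ((I0 F f).smul_mem a h) (I0_mul f hf hu h)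

end

theorem val : VALStm := by
  intro F L _ _ _ m f hf
  have hne : ∀ i, f i ≠ 0 := fun i => hf.ne_zero i
  have hI : II F f hne ≠ ⊤ := by
    rw [Ideal.ne_top_iff_one]
    intro h
    exact one_notMem f hf h
  obtain ⟨V, hV, hV'⟩ := Ideal.image_subset_nonunits_valuationSubring (II F f hne) hI
  refine ⟨V, fun x => hV ⟨x, 0, (I0 F f).zero_mem, by rw [add_zero]⟩, fun c hc => ?_⟩
  have h1 : mon f c ∈ I0 F f := Submodule.subset_span ⟨c, hc, rfl⟩
  have h2 : mon f c ∈ R0 F f hne := ⟨0, mon f c, h1, by rw [map_zero, zero_add]⟩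
  exact (ValuationSubring.mem_nonunits_iff V).1 (hV' ⟨⟨mon f c, h2⟩, h1, rfl⟩)

end Pool.Agent.K1H74.KA
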